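import Pool.Agent.H23L.Lmf

/-! The linear matrix factorisation `(1 - u A - v B) P = g`. -/

set_option autoImplicit false

open MvPolynomial Matrix

namespace Pool.Agent.H23L

variable {R : Type*} [CommRing R]

theorem linear_eq {p : MvPolynomial (Fin 2) R} (hp : p.totalDegree ≤ 1) :
    p = C (coeff 0 p) + X 0 * C (coeff (Finsupp.single 0 1) p)
      + X 1 * C (coeff (Finsupp.single 1 1) p) := by
  classical
  have hne : (Finsupp.single (0 : Fin 2) 1 : Fin 2 →₀ ℕ) ≠ Finsupp.single 1 1 := by
    intro h
    have := DFunLike.congr_fun h 0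
    simp at this
  ext m
  have hx : ∀ i : Fin 2, coeff m (X i * C (coeff (Finsupp.single i 1) p)) =
      if Finsupp.single i 1 = m then coeff (Finsupp.single i 1) p else 0 := by
    intro i
    rw [mul_comm, coeff_C_mul, coeff_X', mul_ite, mul_one, mul_zero]
  rw [coeff_add, coeff_add, coeff_C, hx, hx]
  by_cases h0 : (0 : Fin 2 →₀ ℕ) = m
  · subst h0; simp
  · rw [if_neg h0]
    by_cases h1 : (Finsupp.single (0 : Fin 2) 1 : Fin 2 →₀ ℕ) = m
    · subst h1; rw [if_pos rfl, if_neg hne.symm]; simp
    · rw [if_neg h1]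
      by_cases h2 : (Finsupp.single (1 : Fin 2) 1 : Fin 2 →₀ ℕ) = m
      · subst h2; rw [if_pos rfl]; simp
      · rw [if_neg h2]
        simp only [add_zero]
        apply coeff_eq_zero_of_totalDegree_lt
        refine hp.trans_lt ?_
        by_contra hcon
        have hs : m.sum (fun _ n => n) = m 0 + m 1 := by
          rw [Finsupp.sum_fintype _ _ (by intro i; rfl), Fin.sum_univ_two]
        have hs2 : ∑ i ∈ m.support, m i = m 0 + m 1 := hs
        rw [hs2] at hcon
        have h3 : m 0 + m 1 ≤ 1 := by omega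
        have h4 : (m 0 = 0 ∧ m 1 = 0) ∨ (m 0 = 1 ∧ m 1 = 0) ∨ (m 0 = 0 ∧ m 1 = 1) := by omega
        rcases h4 with ⟨a, b⟩ | ⟨a, b⟩ | ⟨a, b⟩
        · apply h0
          ext i; fin_cases i
          · simp [a]
          · simp [b]
        · apply h1
          ext i; fin_cases i
          · simp [a]
          · simp [b]
        · apply h2
          ext i; fin_cases i
          · simp [a]
          · simp [b]

theorem pow_entry_degree {ι : Type} [Fintype ι] [DecidableEq ι]
    (M : Matrix ι ι (MvPolynomial (Fin 2) R)) (hM : ∀ i j, (M i j).totalDegree ≤ 1) (k : ℕ) :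
    ∀ i j, ((M ^ k) i j).totalDegree ≤ k := by
  induction k with
  | zero =>
    intro i j
    rw [pow_zero, Matrix.one_apply]
    split <;> simp
  | succ k ih =>
    intro i j
    rw [pow_succ, Matrix.mul_apply]
    apply totalDegree_finsetSum_le
    intro x _
    exact (totalDegree_mul _ _).trans (add_le_add (ih i x) (hM x j))

/-- Linear matrix factorisation. -/
theorem lmf [IsDomain R] {d : ℕ} (hd : 0 < d) {ζ : R} (hζ : IsPrimitiveRoot ζ d)
    (g : MvPolynomial (Fin 2) R) (hg : g.totalDegree ≤ d) (h0 : constantCoeff g = 1) :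
    ∃ (ι : Type) (_ : Fintype ι) (_ : DecidableEq ι) (_ : Nonempty ι) (A B : Matrix ι ι R)
      (P : Matrix ι ι (MvPolynomial (Fin 2) R)),
      (∀ i j, (P i j).totalDegree ≤ d - 1) ∧
      (1 - (X 0 : MvPolynomial (Fin 2) R) • A.map C - (X 1 : MvPolynomial (Fin 2) R) • B.map C) * P
        = g • (1 : Matrix ι ι (MvPolynomial (Fin 2) R)) := by
  classical
  obtain ⟨ι, i1, i2, i3, M, hM, hMd⟩ := isPow_all hd hζ (1 - g)
    ((totalDegree_sub _ _).trans (max_le (by simp) hg))
  let N0 : Matrix ι ι R := M.map (coeff 0)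
  let N1 : Matrix ι ι R := M.map (coeff (Finsupp.single 0 1))
  let N2 : Matrix ι ι R := M.map (coeff (Finsupp.single 1 1))
  have hMsum : M = N0.map C + (X 0 : MvPolynomial (Fin 2) R) • N1.map C +
      (X 1 : MvPolynomial (Fin 2) R) • N2.map C := by
    ext1 i j
    simp only [N0, N1, N2, Matrix.add_apply, Matrix.map_apply, Matrix.smul_apply, smul_eq_mul]
    exact linear_eq (hM i j)
  have hN0 : N0 = (constantCoeff (σ := Fin 2) (R := R)).mapMatrix M := by
    ext i j; rfl
  have hnil : IsNilpotent N0 := by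
    refine ⟨d, ?_⟩
    rw [hN0, ← map_pow, hMd]
    ext i j
    simp only [RingHom.mapMatrix_apply, Matrix.map_apply, Matrix.smul_apply, smul_eq_mul, map_mul,
      map_sub, map_one, h0, sub_self, zero_mul, Matrix.zero_apply]
  have hunit : IsUnit (1 - N0) := hnil.isUnit_one_sub
  obtain ⟨U, hU⟩ := hunit
  let V : Matrix ι ι R := ((U⁻¹ : (Matrix ι ι R)ˣ) : Matrix ι ι R)
  have hV1 : V * (1 - N0) = 1 := by rw [← hU]; exact U.inv_mul
  have hV2 : (1 - N0) * V = 1 := by rw [← hU]; exact U.mul_inv
  let c : Matrix ι ι R →+* Matrix ι ι (MvPolynomial (Fin 2) R) :=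
    (C (σ := Fin 2) (R := R)).mapMatrix
  let Q : Matrix ι ι (MvPolynomial (Fin 2) R) := ∑ i ∈ Finset.range d, M ^ i
  have hQ : (1 - M) * Q = g • (1 : Matrix ι ι (MvPolynomial (Fin 2) R)) := by
    rw [mul_neg_geom_sum, hMd, sub_smul, one_smul]; abel
  refine ⟨ι, i1, i2, i3, V * N1, V * N2, Q * c (1 - N0), ?_, ?_⟩
  · intro i j
    rw [Matrix.mul_apply]
    apply totalDegree_finsetSum_le
    intro x _
    refine (totalDegree_mul _ _).trans ?_
    have h1 : (Q i x).totalDegree ≤ d - 1 := by
      simp only [Q]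
      rw [Matrix.sum_apply]
      apply totalDegree_finsetSum_le
      intro k hk
      exact (pow_entry_degree M hM k i x).trans (by have := Finset.mem_range.1 hk; omega)
    have h2 : (c (1 - N0) x j).totalDegree = 0 := by
      show (C _).totalDegree = 0
      exact totalDegree_C _
    omega
  · have e1 : (1 - (X 0 : MvPolynomial (Fin 2) R) • (V * N1).map C -
        (X 1 : MvPolynomial (Fin 2) R) • (V * N2).map C) = c V * (1 - M) := by
      have a1 : (V * N1).map C = c V * N1.map C := by
        show c (V * N1) = c V * c N1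
        exact map_mul c V N1
      have a2 : (V * N2).map C = c V * N2.map C := by
        show c (V * N2) = c V * c N2
        exact map_mul c V N2
      have a3 : c V * (1 - N0.map C) = 1 := by
        have h1 : c (V * (1 - N0)) = 1 := by rw [hV1, map_one]
        rw [map_mul, map_sub, map_one] at h1
        exact h1
      rw [a1, a2]
      calc 1 - (X 0 : MvPolynomial (Fin 2) R) • (c V * N1.map C) -
            (X 1 : MvPolynomial (Fin 2) R) • (c V * N2.map C)
          = c V * (1 - N0.map C) - (X 0 : MvPolynomial (Fin 2) R) • (c V * N1.map C) -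
            (X 1 : MvPolynomial (Fin 2) R) • (c V * N2.map C) := by rw [a3]
        _ = c V * (1 - M) := by
          rw [hMsum]
          simp only [mul_sub, mul_add, Matrix.mul_smul]
          abel
    rw [e1]
    calc c V * (1 - M) * (Q * c (1 - N0)) = c V * ((1 - M) * Q) * c (1 - N0) := by
          simp only [mul_assoc]
      _ = g • (c V * c (1 - N0)) := by
          rw [hQ, Matrix.mul_smul, mul_one, Matrix.smul_mul]
      _ = g • 1 := by rw [← map_mul, hV1, map_one]

end Pool.Agent.H23L
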