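import Pool.Agent.H23L.QPow

/-! Linear matrix factorisations `(1 - A u - B v) P = g` with `deg P < deg g`. -/

set_option autoImplicit false

open MvPolynomial Matrix
open scoped Kronecker

namespace Pool.Agent.H23L

section cyc

variable {T : Type*} [CommRing T]

/-- The weighted cyclic matrix. -/
def cyc (d : ℕ) [NeZero d] (l : ZMod d → T) : Matrix (ZMod d) (ZMod d) T :=
  Matrix.of fun i j => if j = i + 1 then l i else 0

theorem cyc_pow (d : ℕ) [NeZero d] (l : ZMod d → T) (k : ℕ) :
    (cyc d l) ^ k = Matrix.of fun i j => if j = i + (k : ZMod d) then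
      ∏ t ∈ Finset.range k, l (i + (t : ZMod d)) else 0 := by
  induction k with
  | zero =>
    ext i j
    simp only [pow_zero, Matrix.one_apply, Nat.cast_zero, add_zero, Finset.range_zero,
      Finset.prod_empty, Matrix.of_apply]
    by_cases h : i = j
    · subst h; simp
    · rw [if_neg h, if_neg (fun h' => h h'.symm)]
  | succ k ih =>
    ext i j
    rw [pow_succ, ih, Matrix.mul_apply]
    simp only [Matrix.of_apply, cyc]
    rw [Finset.sum_eq_single (i + (k : ZMod d))]
    · rw [if_pos rfl, Finset.prod_range_succ]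
      by_cases h : j = i + (k : ZMod d) + 1
      · rw [if_pos h, if_pos (by rw [h]; push_cast; ring)]
      · rw [if_neg h, if_neg (by intro h'; apply h; rw [h']; push_cast; ring), mul_zero]
    · intro b _ hb
      rw [if_neg hb, zero_mul]
    · intro h; exact absurd (Finset.mem_univ _) h

theorem prod_shift (d : ℕ) [NeZero d] (l : ZMod d → T) (i : ZMod d) :
    ∏ t ∈ Finset.range d, l (i + (t : ZMod d)) = ∏ t ∈ Finset.range d, l (t : ZMod d) := by
  have key : ∀ i : ZMod d, ∏ t ∈ Finset.range d, l (i + (t : ZMod d)) = ∏ x : ZMod d, l x := by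
    intro i
    apply Finset.prod_nbij (fun t : ℕ => i + (t : ZMod d))
    · intro t _; exact Finset.mem_univ _
    · intro a ha b hb hab
      have hab' : (a : ZMod d) = (b : ZMod d) := add_left_cancel hab
      have ha' : a < d := Finset.mem_range.1 ha
      have hb' : b < d := Finset.mem_range.1 hb
      have := congrArg ZMod.val hab'
      rwa [ZMod.val_natCast, ZMod.val_natCast, Nat.mod_eq_of_lt ha', Nat.mod_eq_of_lt hb'] at this
    · intro x _
      refine ⟨(x - i).val, ?_, ?_⟩
      · simp only [Finset.coe_range, Set.mem_Iio]; exact ZMod.val_lt _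
      · simp only [ZMod.natCast_val, ZMod.cast_id', id_eq]; ring
    · intro t _; rfl
  have h0 := key 0
  simp only [zero_add] at h0
  rw [key i, h0]

theorem cyc_pow_self (d : ℕ) [NeZero d] (l : ZMod d → T) :
    (cyc d l) ^ d = (∏ t ∈ Finset.range d, l (t : ZMod d)) • (1 : Matrix (ZMod d) (ZMod d) T) := by
  rw [cyc_pow]
  ext i j
  simp only [Matrix.of_apply, CharP.cast_eq_zero, add_zero, Matrix.smul_apply, Matrix.one_apply,
    smul_eq_mul]
  by_cases h : j = i
  · subst h
    rw [if_pos rfl, if_pos rfl, mul_one, prod_shift]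
  · rw [if_neg h, if_neg (fun h' => h h'.symm), mul_zero]

end cyc

variable {R : Type*} [CommRing R]

theorem kronecker_pow {T : Type*} [CommRing T] {m n : Type*} [Fintype m] [Fintype n]
    [DecidableEq m] [DecidableEq n] (X : Matrix m m T) (Y : Matrix n n T) (k : ℕ) :
    (X ⊗ₖ Y) ^ k = (X ^ k) ⊗ₖ (Y ^ k) := by
  induction k with
  | zero => simp
  | succ k ih => rw [pow_succ, ih, ← mul_kronecker_mul, ← pow_succ, ← pow_succ]

/-- `h` is the scalar `M ^ d` for a matrix `M` with entries of degree at most `1`. -/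
def IsPow (d : ℕ) (h : MvPolynomial (Fin 2) R) : Prop :=
  ∃ (ι : Type) (_ : Fintype ι) (_ : DecidableEq ι) (_ : Nonempty ι)
    (M : Matrix ι ι (MvPolynomial (Fin 2) R)),
    (∀ i j, (M i j).totalDegree ≤ 1) ∧ M ^ d = h • (1 : Matrix ι ι (MvPolynomial (Fin 2) R))

theorem isPow_zero {d : ℕ} (hd : 0 < d) : IsPow (R := R) d 0 := by
  refine ⟨Unit, inferInstance, inferInstance, inferInstance, 0, ?_, ?_⟩
  · intro i j; simp
  · rw [zero_pow hd.ne', zero_smul]

theorem zeta_val {d : ℕ} [NeZero d] {ζ : R} (hζ : ζ ^ d = 1) (i : ZMod d) :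
    ζ ^ (i + 1).val = ζ * ζ ^ i.val := by
  have h1 : (i + 1).val = (i.val + 1) % d := by
    rw [← ZMod.val_natCast d (i.val + 1)]
    congr 1
    push_cast
    rw [ZMod.natCast_zmod_val]
  have h2 : ∀ a : ℕ, ζ ^ (a % d) = ζ ^ a := by
    intro a
    conv_rhs => rw [← Nat.div_add_mod a d, pow_add, pow_mul, hζ, one_pow, one_mul]
  rw [h1, h2, pow_succ, mul_comm]

theorem isPow_add [IsDomain R] {d : ℕ} (hd : 0 < d) {ζ : R} (hζ : IsPrimitiveRoot ζ d)
    {h : MvPolynomial (Fin 2) R} (hh : IsPow d h) (l : ℕ → MvPolynomial (Fin 2) R)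
    (hl : ∀ t, (l t).totalDegree ≤ 1) : IsPow d (h + ∏ t ∈ Finset.range d, l t) := by
  classical
  obtain ⟨ι, i1, i2, i3, M, hM, hMd⟩ := hh
  haveI : NeZero d := ⟨hd.ne'⟩
  let l' : ZMod d → MvPolynomial (Fin 2) R := fun x => l x.val
  let D : Matrix (ZMod d) (ZMod d) (MvPolynomial (Fin 2) R) :=
    Matrix.diagonal fun i => C (ζ ^ i.val)
  have hD : D ^ d = 1 := by
    rw [Matrix.diagonal_pow]
    have : (fun i : ZMod d => (C (ζ ^ i.val) : MvPolynomial (Fin 2) R)) ^ d = 1 := by
      funext i
      simp only [Pi.pow_apply, Pi.one_apply]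
      rw [← C_pow, ← pow_mul, mul_comm, pow_mul, hζ.pow_eq_one, one_pow, C_1]
    rw [this]; exact Matrix.diagonal_one
  have hcD : cyc d l' * D = ζ • (D * cyc d l') := by
    ext1 i j
    simp only [D, Matrix.mul_diagonal, Matrix.diagonal_mul, Matrix.smul_apply, cyc,
      Matrix.of_apply]
    by_cases hj : j = i + 1
    · subst hj
      rw [if_pos rfl, zeta_val hζ.pow_eq_one, C_mul, MvPolynomial.smul_eq_C_mul]
      ring
    · rw [if_neg hj]; simp
  refine ⟨ι × ZMod d, inferInstance, inferInstance, inferInstance,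
    M ⊗ₖ D + (1 : Matrix ι ι (MvPolynomial (Fin 2) R)) ⊗ₖ cyc d l', ?_, ?_⟩
  · intro i j
    rw [Matrix.add_apply]
    refine (totalDegree_add _ _).trans (max_le ?_ ?_)
    · rw [Matrix.kronecker_apply]
      refine (totalDegree_mul _ _).trans ?_
      have h1 : (D i.2 j.2).totalDegree ≤ 0 := by
        simp only [D, Matrix.diagonal_apply]
        split
        · rw [totalDegree_C]
        · simp
      have := hM i.1 j.1
      omega
    · rw [Matrix.kronecker_apply]
      refine (totalDegree_mul _ _).trans ?_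
      have h1 : ((1 : Matrix ι ι (MvPolynomial (Fin 2) R)) i.1 j.1).totalDegree ≤ 0 := by
        rw [Matrix.one_apply]
        split
        · simp
        · simp
      have h2 : (cyc d l' i.2 j.2).totalDegree ≤ 1 := by
        simp only [cyc, Matrix.of_apply]
        split
        · exact hl _
        · simp
      omega
  · rw [add_pow_root hd hζ (q := ζ)]
    · rw [kronecker_pow, kronecker_pow, hMd, hD, one_pow, cyc_pow_self]
      have e : ∏ t ∈ Finset.range d, l' (t : ZMod d) = ∏ t ∈ Finset.range d, l t := by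
        apply Finset.prod_congr rfl
        intro t ht
        simp only [l']
        rw [ZMod.val_natCast, Nat.mod_eq_of_lt (Finset.mem_range.1 ht)]
      rw [e, smul_kronecker, kronecker_smul, one_kronecker_one, ← add_smul]
    · rw [← mul_kronecker_mul, ← mul_kronecker_mul, hcD, kronecker_smul, one_mul, mul_one]

theorem monomial_prod {d : ℕ} (hd : 0 < d) (s : Fin 2 →₀ ℕ) (c : R) (hs : s 0 + s 1 ≤ d) :
    ∃ l : ℕ → MvPolynomial (Fin 2) R, (∀ t, (l t).totalDegree ≤ 1) ∧
      ∏ t ∈ Finset.range d, l t = monomial s c := by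
  obtain ⟨e, rfl⟩ := Nat.exists_eq_add_of_le hs
  let l1 : ℕ → MvPolynomial (Fin 2) R := fun t =>
    if t < s 0 then X 0 else if t < s 0 + s 1 then X 1 else 1
  let l2 : ℕ → MvPolynomial (Fin 2) R := fun t => if t = 0 then C c else 1
  refine ⟨fun t => l1 t * l2 t, ?_, ?_⟩
  · intro t
    refine (totalDegree_mul _ _).trans ?_
    have h1 : (l1 t).totalDegree ≤ 1 := by
      simp only [l1]
      have hX : ∀ i : Fin 2, (X i : MvPolynomial (Fin 2) R).totalDegree ≤ 1 := by
        intro i
        refine (totalDegree_monomial_le _ _).trans ?_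
        simp [Finsupp.degree]
      split_ifs
      · exact hX 0
      · exact hX 1
      · simp
    have h2 : (l2 t).totalDegree ≤ 0 := by
      simp only [l2]
      split_ifs
      · rw [totalDegree_C]
      · simp
    omega
  · rw [Finset.prod_mul_distrib]
    have e2 : ∏ t ∈ Finset.range (s 0 + s 1 + e), l2 t = C c := by
      simp only [l2]
      rw [Finset.prod_ite_eq' (Finset.range (s 0 + s 1 + e)) 0 (fun _ => (C c : MvPolynomial (Fin 2) R))]
      rw [if_pos (Finset.mem_range.2 hd)]
    have e1 : ∏ t ∈ Finset.range (s 0 + s 1 + e), l1 t = X 0 ^ s 0 * X 1 ^ s 1 := by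
      rw [Finset.prod_range_add, Finset.prod_range_add]
      have a1 : ∏ x ∈ Finset.range (s 0), l1 x = X 0 ^ s 0 := by
        rw [Finset.prod_congr rfl (g := fun _ => X 0), Finset.prod_const, Finset.card_range]
        intro x hx
        simp only [l1]; rw [if_pos (Finset.mem_range.1 hx)]
      have a2 : ∏ x ∈ Finset.range (s 1), l1 (s 0 + x) = X 1 ^ s 1 := by
        rw [Finset.prod_congr rfl (g := fun _ => X 1), Finset.prod_const, Finset.card_range]
        intro x hx
        have := Finset.mem_range.1 hx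
        simp only [l1]; rw [if_neg (by omega), if_pos (by omega)]
      have a3 : ∏ x ∈ Finset.range e, l1 (s 0 + s 1 + x) = 1 := by
        apply Finset.prod_eq_one
        intro x hx
        simp only [l1]; rw [if_neg (by omega), if_neg (by omega)]
      rw [a1, a2, a3, mul_one]
    rw [e1, e2, monomial_eq, mul_comm]
    congr 1
    rw [Finsupp.prod_fintype _ _ (by intro i; simp), Fin.prod_univ_two]

theorem isPow_all [IsDomain R] {d : ℕ} (hd : 0 < d) {ζ : R} (hζ : IsPrimitiveRoot ζ d)
    (h : MvPolynomial (Fin 2) R) (hh : h.totalDegree ≤ d) : IsPow d h := by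
  classical
  have key : ∀ F : Finset (Fin 2 →₀ ℕ), F ⊆ h.support →
      IsPow d (∑ s ∈ F, monomial s (coeff s h)) := by
    intro F
    induction F using Finset.induction_on with
    | empty => intro _; rw [Finset.sum_empty]; exact isPow_zero hd
    | insert s F hs ih =>
      intro hF
      rw [Finset.sum_insert hs, add_comm]
      have hs' : s ∈ h.support := hF (Finset.mem_insert_self _ _)
      have hdeg : s 0 + s 1 ≤ d := by
        have := (le_totalDegree hs').trans hh
        rw [Finsupp.sum_fintype _ _ (by intro i; rfl), Fin.sum_univ_two] at this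
        exact this
      obtain ⟨l, hl, hlp⟩ := monomial_prod hd s (coeff s h) hdeg
      rw [← hlp]
      exact isPow_add hd hζ (ih ((Finset.subset_insert _ _).trans hF)) l hl
  have := key h.support (Finset.Subset.refl _)
  rwa [← h.as_sum] at this

end Pool.Agent.H23L
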