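import Mathlib

/-! Powers of a sum of two `ζ`-commuting elements. -/

set_option autoImplicit false

namespace Pool.Agent.H23L

variable {R : Type*} [CommRing R]

/-- Gaussian binomial coefficients. -/
def qb (q : R) : ℕ → ℕ → R
  | 0, 0 => 1
  | 0, _ + 1 => 0
  | _ + 1, 0 => 1
  | n + 1, k + 1 => q ^ (k + 1) * qb q n (k + 1) + qb q n k

theorem qb_zero (q : R) (n : ℕ) : qb q n 0 = 1 := by cases n <;> rfl

theorem qb_succ (q : R) (n k : ℕ) :
    qb q (n + 1) (k + 1) = q ^ (k + 1) * qb q n (k + 1) + qb q n k := rfl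

theorem qb_gt (q : R) : ∀ n k : ℕ, n < k → qb q n k = 0 := by
  intro n
  induction n with
  | zero => intro k hk; cases k with
    | zero => omega
    | succ k => rfl
  | succ n ih => intro k hk; cases k with
    | zero => omega
    | succ k => rw [qb_succ, ih _ (by omega), ih _ (by omega)]; simp

theorem qb_self (q : R) (n : ℕ) : qb q n n = 1 := by
  induction n with
  | zero => rfl
  | succ n ih => rw [qb_succ, ih, qb_gt q n (n + 1) (by omega)]; simp

theorem qb_ids (q : R) : ∀ n : ℕ,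
    (∀ k, (1 - q ^ (k + 1)) * qb q (n + 1) (k + 1) = (1 - q ^ (n + 1)) * qb q n k) ∧
    (∀ i k, i + k = n + 1 → (1 - q ^ i) * qb q (n + 1) k = (1 - q ^ (n + 1)) * qb q n k) := by
  intro n
  induction n with
  | zero =>
    constructor
    · intro k
      cases k with
      | zero => rw [qb_succ]; simp [qb]
      | succ k => rw [qb_succ]; simp [qb]
    · intro i k hik
      have : k = 0 ∨ k = 1 := by omega
      rcases this with rfl | rfl
      · have : i = 1 := by omega
        subst this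
        rw [qb_zero, qb_zero]
      · have : i = 0 := by omega
        subst this
        simp [qb]
  | succ m ih =>
    obtain ⟨hP, hQ⟩ := ih
    have hQ' : ∀ i k, i + k = m + 1 + 1 →
        (1 - q ^ i) * qb q (m + 1 + 1) k = (1 - q ^ (m + 1 + 1)) * qb q (m + 1) k := by
      intro i k hik
      cases k with
      | zero =>
        have : i = m + 1 + 1 := by omega
        subst this
        rw [qb_zero, qb_zero]
      | succ k =>
        have h1 := hP k
        have h2 := hQ i k (by omega)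
        have h3 : q ^ (k + 1) * q ^ i = q ^ (m + 1 + 1) := by
          rw [← pow_add]; congr 1; omega
        rw [qb_succ]
        calc (1 - q ^ i) * (q ^ (k + 1) * qb q (m + 1) (k + 1) + qb q (m + 1) k)
            = (q ^ (k + 1) - q ^ (k + 1) * q ^ i) * qb q (m + 1) (k + 1)
                + (1 - q ^ i) * qb q (m + 1) k := by ring
          _ = (q ^ (k + 1) - q ^ (m + 1 + 1)) * qb q (m + 1) (k + 1)
                + (1 - q ^ (k + 1)) * qb q (m + 1) (k + 1) := by rw [h2, h1, h3]
          _ = (1 - q ^ (m + 1 + 1)) * qb q (m + 1) (k + 1) := by ring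
    refine ⟨?_, hQ'⟩
    intro k
    by_cases hk : k ≤ m + 1
    · have h1 := hP k
      have h2 := hQ (m + 1 - k) k (by omega)
      have h3 : q ^ (k + 1) * q ^ (m + 1 - k) = q ^ (m + 1 + 1) := by
        rw [← pow_add]; congr 1; omega
      rw [qb_succ]
      calc (1 - q ^ (k + 1)) * (q ^ (k + 1) * qb q (m + 1) (k + 1) + qb q (m + 1) k)
          = q ^ (k + 1) * ((1 - q ^ (k + 1)) * qb q (m + 1) (k + 1))
            + (1 - q ^ (k + 1)) * qb q (m + 1) k := by ring
        _ = q ^ (k + 1) * ((1 - q ^ (m + 1 - k)) * qb q (m + 1) k)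
            + (1 - q ^ (k + 1)) * qb q (m + 1) k := by rw [h1, h2]
        _ = (q ^ (k + 1) - q ^ (k + 1) * q ^ (m + 1 - k)) * qb q (m + 1) k
            + (1 - q ^ (k + 1)) * qb q (m + 1) k := by ring
        _ = (1 - q ^ (m + 1 + 1)) * qb q (m + 1) k := by rw [h3]; ring
    · rw [qb_gt q (m + 1 + 1) (k + 1) (by omega), qb_gt q (m + 1) k (by omega)]
      simp

theorem qb_vanish [IsDomain R] {q : R} {d : ℕ} (hq : IsPrimitiveRoot q d) {k : ℕ}
    (h1 : 0 < k) (h2 : k < d) : qb q d k = 0 := by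
  obtain ⟨k, rfl⟩ := Nat.exists_eq_succ_of_ne_zero h1.ne'
  obtain ⟨d, rfl⟩ := Nat.exists_eq_succ_of_ne_zero (show d ≠ 0 by omega)
  have h := (qb_ids q d).1 k
  rw [show q ^ (d + 1) = 1 from hq.pow_eq_one] at h
  have h3 : (1 : R) - q ^ (k + 1) ≠ 0 := by
    intro h0
    exact hq.pow_ne_one_of_pos_of_lt (by omega) h2 (sub_eq_zero.1 h0).symm
  have h4 : (1 - q ^ (k + 1)) * qb q (d + 1) (k + 1) = 0 := by rw [h]; ring
  exact (mul_eq_zero.1 h4).resolve_left h3

variable {A : Type*} [Ring A] [Algebra R A]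

theorem comm_pow {q : R} {X Y : A} (h : Y * X = q • (X * Y)) (k : ℕ) :
    Y ^ k * X = q ^ k • (X * Y ^ k) := by
  induction k with
  | zero => simp
  | succ k ih =>
    rw [pow_succ', mul_assoc, ih, mul_smul_comm, ← mul_assoc, h, smul_mul_assoc, smul_smul,
      mul_assoc, ← pow_succ, ← pow_succ']

theorem add_pow_q {q : R} {X Y : A} (h : Y * X = q • (X * Y)) (n : ℕ) :
    (X + Y) ^ n = ∑ k ∈ Finset.range (n + 1), qb q n k • (X ^ (n - k) * Y ^ k) := by
  induction n with
  | zero => simp [qb]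
  | succ n ih =>
    rw [pow_succ, ih, mul_add, Finset.sum_mul, Finset.sum_mul]
    rw [Finset.sum_range_succ' _ (n + 1)]
    have e1 : ∀ k ∈ Finset.range (n + 1), qb q (n + 1) (k + 1) • (X ^ (n + 1 - (k + 1)) * Y ^ (k + 1))
        = (q ^ (k + 1) * qb q n (k + 1)) • (X ^ (n - k) * Y ^ (k + 1)) +
          qb q n k • (X ^ (n - k) * Y ^ (k + 1)) := by
      intro k _
      rw [qb_succ, add_smul, Nat.add_sub_add_right]
    rw [Finset.sum_congr rfl e1, Finset.sum_add_distrib]
    have e2 : ∀ k ∈ Finset.range (n + 1), qb q n k • (X ^ (n - k) * Y ^ k) * Y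
        = qb q n k • (X ^ (n - k) * Y ^ (k + 1)) := by
      intro k _
      rw [smul_mul_assoc, mul_assoc, ← pow_succ]
    rw [Finset.sum_congr rfl e2]
    have e3 : ∀ k ∈ Finset.range (n + 1), qb q n k • (X ^ (n - k) * Y ^ k) * X
        = (q ^ k * qb q n k) • (X ^ (n + 1 - k) * Y ^ k) := by
      intro k hk
      have hk' : k ≤ n := Nat.lt_succ_iff.1 (Finset.mem_range.1 hk)
      rw [smul_mul_assoc, mul_assoc, comm_pow h, mul_smul_comm, smul_smul, ← mul_assoc,
        ← pow_succ, show n - k + 1 = n + 1 - k by omega, mul_comm]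
    rw [Finset.sum_congr rfl e3]
    rw [Finset.sum_range_succ' _ n]
    have e4 : ∑ k ∈ Finset.range (n + 1), (q ^ (k + 1) * qb q n (k + 1)) •
        (X ^ (n - k) * Y ^ (k + 1)) = ∑ k ∈ Finset.range n, (q ^ (k + 1) * qb q n (k + 1)) •
        (X ^ (n + 1 - (k + 1)) * Y ^ (k + 1)) := by
      rw [Finset.sum_range_succ, qb_gt q n (n + 1) (by omega)]
      simp
    rw [e4]
    simp only [qb_zero, pow_zero, Nat.sub_zero, mul_one]
    abel

theorem add_pow_root [IsDomain R] {q : R} {d : ℕ} (hd : 0 < d) (hq : IsPrimitiveRoot q d)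
    {X Y : A} (h : Y * X = q • (X * Y)) : (X + Y) ^ d = X ^ d + Y ^ d := by
  rw [add_pow_q h]
  obtain ⟨d, rfl⟩ := Nat.exists_eq_succ_of_ne_zero hd.ne'
  rw [Finset.sum_range_succ, Finset.sum_range_succ']
  rw [Finset.sum_eq_zero]
  · simp [qb_zero, qb_self]
  · intro k hk
    rw [qb_vanish hq (by omega) (by have := Finset.mem_range.1 hk; omega), zero_smul]

end Pool.Agent.H23L
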